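import Mathlib
import Pool.Agent.Helper66.KPP.Defs
import Pool.Agent.Helper66.KPP.Main

set_option autoImplicit false

open Pool.Agent.Helper66.KPP

namespace Pool.Agent.Results.MP_97d5d8_an.ConverseFails

/-- For every `N ≥ 2` there is a closed connected set `U ⊆ ℝᴺ` that satisfies (D) and violates
(B), such that for every Fisher-KPP nonlinearity `f` the solution `u` of `∂ₜu = Δu + f(u)` with
initial datum `𝟙_U` exists, is unique, and has asymptotic one-dimensional symmetry. -/
theorem result (N : ℕ) (hN : 2 ≤ N) : ∃ U : Set (E N), IsClosed U ∧ IsConnected U ∧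
    ConditionD U ∧ ¬ ConditionB U ∧ ∀ f : ℝ → ℝ, IsFisherKPP f →
      (∃ u, IsSolution f U u) ∧
      (∀ u v, IsSolution f U u → IsSolution f U v → ∀ t > 0, ∀ x, u t x = v t x) ∧
      ∀ u, IsSolution f U u → AsymptoticallyOneDim u :=
  main N hN

end Pool.Agent.Results.MP_97d5d8_an.ConverseFails
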